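import Pool.Agent.Helper188.Morrey.Transport

/-!
# Integration by parts for `P(u(x)) f(x)` with a Lipschitz function `u` of compact support
-/

set_option autoImplicit false

open Matrix Set Filter Topology MeasureTheory
open scoped NNReal ENNReal

namespace Pool.Agent.Q162.MO

/-- the plane -/
abbrev E := Fin 2 → ℝ

/-- partial derivative of a scalar function -/
noncomputable def du (u : E → ℝ) (j : Fin 2) (x : E) : ℝ := fderiv ℝ u x (Pi.single j 1)

theorem measurable_du (u : E → ℝ) (j : Fin 2) : Measurable (du u j) := by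
  have h1 : Measurable (fun x => fderiv ℝ u x) := measurable_fderiv ℝ u
  have h2 : Continuous (fun L : E →L[ℝ] ℝ => L (Pi.single j 1)) := by fun_prop
  exact h2.measurable.comp h1

theorem du_bound {u : E → ℝ} {K : ℝ≥0} (hu : LipschitzWith K u) (j : Fin 2) (x : E) :
    |du u j x| ≤ K := by
  have h1 : ‖fderiv ℝ u x‖ ≤ K := norm_fderiv_le_of_lipschitz ℝ hu
  have h2 : ‖fderiv ℝ u x (Pi.single j 1)‖ ≤ K * 1 := by
    refine (ContinuousLinearMap.le_opNorm _ _).trans ?_
    refine mul_le_mul h1 ?_ (norm_nonneg _) K.2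
    refine (pi_norm_le_iff_of_nonneg zero_le_one).2 fun k => ?_
    rw [Pi.single_apply]
    split_ifs <;> simp
  rw [mul_one] at h2
  exact h2

/-- the gradient vanishes almost everywhere off `Ω` -/
theorem du_off {u : E → ℝ} {K : ℝ≥0} {Ω : Set E} (hu : LipschitzWith K u) (hΩ : IsOpen Ω)
    (h0 : ∀ x, x ∉ Ω → u x = 0) (j : Fin 2) :
    ∀ᵐ x ∂(volume : Measure E), x ∉ Ω → du u j x = 0 := by
  have hd : ∀ᵐ x ∂(volume : Measure E), DifferentiableAt ℝ u x := hu.ae_differentiableAt
  have hθ : LipschitzWith K (fun x : E => (fun _ : Fin 2 => u x : Fin 2 → ℝ)) := by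
    refine LipschitzWith.of_dist_le_mul fun x y => ?_
    refine (dist_pi_le_iff (by positivity)).2 fun _ => hu.dist_le_mul x y
  have h1 := Pool.Agent.Helper188.Morrey.grad_off (ϑ := fun x : E => (fun _ : Fin 2 => u x)) hθ hΩ
    (fun x hx => by funext i; exact h0 x hx)
  rw [ae_restrict_iff' hΩ.measurableSet.compl] at h1
  filter_upwards [hd, h1] with x h5 h6 hx
  have h7 := congrArg (fun A : Matrix (Fin 2) (Fin 2) ℝ => A 0 j) (h6 hx)
  simp only [Pool.Agent.Helper188.Morrey.grad_apply, Matrix.zero_apply] at h7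
  rw [du, ← h7]
  have h8 : HasFDerivAt (fun x : E => (fun _ : Fin 2 => u x : Fin 2 → ℝ))
      (ContinuousLinearMap.pi fun _ : Fin 2 => fderiv ℝ u x) x :=
    hasFDerivAt_pi.2 fun _ => h5.hasFDerivAt
  rw [h8.fderiv]
  rfl

theorem bounded_of {u : E → ℝ} {K : ℝ≥0} {Ω : Set E} (hu : LipschitzWith K u)
    (hb : Bornology.IsBounded Ω) (h0 : ∀ x, x ∉ Ω → u x = 0) : ∃ M : ℝ, 0 ≤ M ∧ ∀ x, |u x| ≤ M := by
  have hcs : HasCompactSupport u := by
    refine HasCompactSupport.intro (K := closure Ω) hb.isCompact_closure fun x hx => ?_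
    rw [h0 x (fun h => hx (subset_closure h))]
  obtain ⟨C, hC⟩ := hcs.exists_bound_of_continuous hu.continuous
  exact ⟨max C 0, le_max_right _ _, fun x => (hC x).trans (le_max_left _ _)⟩

/-- a `C¹` function of a bounded Lipschitz function is Lipschitz -/
theorem comp_lip {u : E → ℝ} {K : ℝ≥0} (hu : LipschitzWith K u) {M : ℝ} (hM : ∀ x, |u x| ≤ M)
    {P p : ℝ → ℝ} (hP : ∀ t, HasDerivAt P (p t) t) (hp : Continuous p) :
    ∃ C : ℝ≥0, LipschitzWith C (fun x => P (u x)) := by
  obtain ⟨B, hB⟩ := (isCompact_Icc (a := -M) (b := M)).exists_bound_of_continuousOn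
    hp.continuousOn
  have hB0 : 0 ≤ max B 0 := le_max_right _ _
  refine ⟨(max B 0).toNNReal * K, LipschitzWith.of_dist_le_mul fun x y => ?_⟩
  have h1 : ‖P (u x) - P (u y)‖ ≤ max B 0 * ‖u x - u y‖ := by
    refine (convex_Icc (-M) M).norm_image_sub_le_of_norm_hasDerivWithin_le
      (fun t ht => (hP t).hasDerivWithinAt) (fun t ht => (hB t ht).trans (le_max_left _ _))
      (abs_le.1 (hM y)) (abs_le.1 (hM x))
  rw [dist_eq_norm]
  refine h1.trans ?_
  have h2 := hu.dist_le_mul x y
  rw [dist_eq_norm] at h2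
  calc max B 0 * ‖u x - u y‖ ≤ max B 0 * (K * dist x y) := mul_le_mul_of_nonneg_left h2 hB0
    _ = (((max B 0).toNNReal * K : ℝ≥0) : ℝ) * dist x y := by
        rw [NNReal.coe_mul, Real.coe_toNNReal _ hB0]
        ring

theorem ibp {u : E → ℝ} {K : ℝ≥0} {Ω : Set E} (hu : LipschitzWith K u) (hΩ : IsOpen Ω)
    (hb : Bornology.IsBounded Ω) (h0 : ∀ x, x ∉ Ω → u x = 0)
    {P p : ℝ → ℝ} (hP : ∀ t, HasDerivAt P (p t) t) (hp : Continuous p) (hP0 : P 0 = 0)
    {f : E → ℝ} {C : ℝ≥0} (hf : LipschitzWith C f) (j : Fin 2) :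
    Integrable (fun x => p (u x) * du u j x * f x + P (u x) * du f j x) (volume.restrict Ω) ∧
    ∫ x in Ω, (p (u x) * du u j x * f x + P (u x) * du f j x) = 0 := by
  obtain ⟨M, hM0, hM⟩ := bounded_of hu hb h0
  obtain ⟨D, hg⟩ := comp_lip hu hM hP hp
  have hPc : Continuous P := continuous_iff_continuousAt.2 fun t => (hP t).continuousAt
  have hg0 : ∀ x, x ∉ Ω → P (u x) = 0 := fun x hx => by rw [h0 x hx, hP0]
  have hcs : HasCompactSupport (fun x => P (u x)) := by
    refine HasCompactSupport.intro (K := closure Ω) hb.isCompact_closure fun x hx => ?_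
    exact hg0 x (fun h => hx (subset_closure h))
  obtain ⟨Bp, hBp⟩ := (isCompact_Icc (a := -M) (b := M)).exists_bound_of_continuousOn
    hp.continuousOn
  obtain ⟨BP, hBP⟩ := (isCompact_Icc (a := -M) (b := M)).exists_bound_of_continuousOn
    hPc.continuousOn
  have hfin : IsFiniteMeasure ((volume : Measure E).restrict Ω) := ⟨by
    rw [Measure.restrict_apply_univ]; exact hb.measure_lt_top⟩
  obtain ⟨Bf, hBf⟩ := hb.isCompact_closure.exists_bound_of_continuousOn hf.continuous.continuousOn
  have hmem : ∀ᵐ x ∂((volume : Measure E).restrict Ω), x ∈ Ω := ae_restrict_mem hΩ.measurableSet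
  have hi1 : Integrable (fun x => p (u x) * du u j x * f x) (volume.restrict Ω) := by
    refine Integrable.of_bound (C := |Bp| * K * |Bf|) ?_ ?_
    · exact (((hp.comp hu.continuous).measurable.mul (measurable_du u j)).mul
        hf.continuous.measurable).aestronglyMeasurable
    · filter_upwards [hmem] with x hx
      rw [norm_mul, norm_mul]
      refine mul_le_mul (mul_le_mul ?_ (du_bound hu j x) (norm_nonneg _) (abs_nonneg _)) ?_
        (norm_nonneg _) (by positivity)
      · exact (hBp _ (abs_le.1 (hM x))).trans (le_abs_self _)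
      · exact (hBf x (subset_closure hx)).trans (le_abs_self _)
  have hi2 : Integrable (fun x => P (u x) * du f j x) (volume.restrict Ω) := by
    refine Integrable.of_bound (C := |BP| * C) ?_ ?_
    · exact ((hPc.comp hu.continuous).measurable.mul (measurable_du f j)).aestronglyMeasurable
    · refine Eventually.of_forall fun x => ?_
      rw [norm_mul]
      refine mul_le_mul ?_ (du_bound hf j x) (norm_nonneg _) (abs_nonneg _)
      exact (hBP _ (abs_le.1 (hM x))).trans (le_abs_self _)
  refine ⟨hi1.add hi2, ?_⟩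
  rw [integral_add hi1 hi2]
  have h1 : ∫ x in Ω, p (u x) * du u j x * f x = ∫ x, p (u x) * du u j x * f x := by
    refine setIntegral_eq_integral_of_ae_compl_eq_zero ?_
    filter_upwards [du_off hu hΩ h0 j] with x hx hx'
    rw [hx hx']
    ring
  have h2 : ∫ x in Ω, P (u x) * du f j x = ∫ x, P (u x) * du f j x := by
    refine setIntegral_eq_integral_of_ae_compl_eq_zero ?_
    refine Eventually.of_forall fun x hx' => ?_
    rw [hg0 x hx', zero_mul]
  rw [h1, h2]
  have h3 := LipschitzWith.integral_lineDeriv_mul_eq (μ := (volume : Measure E))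
    hf hg hcs (Pi.single j 1)
  have h4 : ∫ x, lineDeriv ℝ f x (Pi.single j 1) * P (u x) = ∫ x, P (u x) * du f j x := by
    refine integral_congr_ae ?_
    filter_upwards [hf.ae_differentiableAt] with x hx
    rw [hx.lineDeriv_eq_fderiv, mul_comm]
    rfl
  have h5 : ∫ x, lineDeriv ℝ (fun x => P (u x)) x (-(Pi.single j 1)) * f x =
      -∫ x, p (u x) * du u j x * f x := by
    rw [← integral_neg]
    refine integral_congr_ae ?_
    filter_upwards [hu.ae_differentiableAt] with x hx
    have h6 : HasFDerivAt (fun x => P (u x)) (p (u x) • fderiv ℝ u x) x :=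
      (hP (u x)).comp_hasFDerivAt x hx.hasFDerivAt
    rw [h6.differentiableAt.lineDeriv_eq_fderiv, h6.fderiv, map_neg]
    simp only [FunLike.coe_smul, Pi.smul_apply, smul_eq_mul, du]
    ring
  rw [h4, h5] at h3
  linarith

end Pool.Agent.Q162.MO
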