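import Pool.Agent.Q162.MO.M1

/-!
# The quasiconvexity inequality for maps that are affine on level sets: functions of class `C¹`
-/

set_option autoImplicit false

open Matrix Set Filter Topology MeasureTheory
open scoped NNReal ENNReal

namespace Pool.Agent.Q162.MO

open Pool.Agent.Helper188.Morrey

/-- 2 x 2 arrays -/
abbrev A2 := Fin 2 → Fin 2 → ℝ

/-- the matrix units -/
def mu (i j : Fin 2) : A2 := Pi.single i (Pi.single j 1)

theorem lin_sum (l : A2 →L[ℝ] ℝ) (H : A2) : l H = ∑ i, ∑ j, l (mu i j) * H i j := by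
  have e : H = ∑ i, ∑ j, H i j • mu i j := by
    funext a b
    simp only [Finset.sum_apply, Pi.smul_apply, smul_eq_mul, mu]
    simp only [Fin.sum_univ_two]
    fin_cases a <;> fin_cases b <;> simp
  conv_lhs => rw [e]
  simp only [map_sum, map_smul, smul_eq_mul]
  refine Finset.sum_congr rfl fun i _ => Finset.sum_congr rfl fun j _ => mul_comm _ _

/-- the tangent inequality -/
theorem tangent {w : A2 → ℝ} (hw : ContDiff ℝ 1 w)
    (hW : RankOneConvex (fun A : M2 => w (fun i j => A i j))) (A : A2) (b c : Fin 2 → ℝ) :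
    w A + fderiv ℝ w A (fun i j => b i * c j) ≤ w (A + fun i j => b i * c j) := by
  obtain ⟨H, hH⟩ : ∃ H : A2, H = fun i j => b i * c j := ⟨_, rfl⟩
  rw [← hH]
  have hdet : (Matrix.of H : M2).det = 0 := by
    rw [Matrix.det_fin_two, hH]
    simp only [Matrix.of_apply]
    ring
  have h1 := hW.line (Matrix.of A) (Matrix.of H) hdet
  have h2 : (fun t : ℝ => w (fun i j => ((Matrix.of A : M2) + t • (Matrix.of H : M2)) i j)) =
      fun t : ℝ => w (A + t • H) := by
    funext t
    congr 1
  rw [h2] at h1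
  have h3 : HasDerivAt (fun t : ℝ => w (A + t • H)) (fderiv ℝ w A H) 0 := by
    have h4 : HasDerivAt (fun t : ℝ => A + t • H) H 0 := by
      have h5 := ((hasDerivAt_id (0 : ℝ)).smul_const H).const_add A
      simpa using h5
    have h6 : HasFDerivAt w (fderiv ℝ w A) (A + (0 : ℝ) • H) := by
      rw [zero_smul, add_zero]
      exact (hw.differentiable (by norm_num) A).hasFDerivAt
    exact h6.comp_hasDerivAt (0 : ℝ) h4
  have h7 := h1.deriv_le_slope (mem_univ (0 : ℝ)) (mem_univ (1 : ℝ)) zero_lt_one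
    h3.differentiableAt
  rw [h3.deriv, slope_def_field] at h7
  simp only [zero_smul, add_zero, one_smul, sub_zero, div_one] at h7
  linarith

/-- antiderivative -/
noncomputable def anti (f : ℝ → ℝ) (t : ℝ) : ℝ := ∫ s in (0 : ℝ)..t, f s

theorem anti_deriv {f : ℝ → ℝ} (hf : Continuous f) (t : ℝ) : HasDerivAt (anti f) (f t) t :=
  intervalIntegral.integral_hasDerivAt_right (hf.intervalIntegrable _ _)
    (hf.stronglyMeasurableAtFilter _ _) hf.continuousAt

theorem anti_zero (f : ℝ → ℝ) : anti f 0 = 0 := intervalIntegral.integral_same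

theorem du_coord (k j : Fin 2) (x : E) : du (fun x : E => x k) j x = if j = k then 1 else 0 := by
  have h : HasFDerivAt (fun x : E => x k)
      (ContinuousLinearMap.proj (R := ℝ) (φ := fun _ : Fin 2 => ℝ) k) x :=
    (ContinuousLinearMap.proj (R := ℝ) (φ := fun _ : Fin 2 => ℝ) k).hasFDerivAt
  rw [du, h.fderiv]
  simp only [ContinuousLinearMap.proj_apply, Pi.single_apply]
  by_cases h : j = k
  · subst h; simp
  · rw [if_neg (fun h' => h h'.symm), if_neg h]

theorem lip_coord (k : Fin 2) : LipschitzWith 1 (fun x : E => x k) :=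
  LipschitzWith.of_dist_le_mul fun x y => by
    rw [NNReal.coe_one, one_mul]
    exact dist_le_pi_dist x y k

theorem du_one (j : Fin 2) (x : E) : du (fun _ : E => (1 : ℝ)) j x = 0 := by
  simp [du]

/-- the data of the test map -/
structure Dat where
  u : E → ℝ
  K : ℝ≥0
  Ω : Set E
  G : ℝ → A2
  G' : ℝ → A2
  g : ℝ → E
  g' : ℝ → E
  hu : LipschitzWith K u
  ho : IsOpen Ω
  hb : Bornology.IsBounded Ω
  h0 : ∀ x, x ∉ Ω → u x = 0
  hG : ∀ i j t, HasDerivAt (fun s => G s i j) (G' t i j) t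
  hg : ∀ i t, HasDerivAt (fun s => g s i) (g' t i) t
  cG : ∀ i j, Continuous fun t => G' t i j
  cg : ∀ i, Continuous fun t => g' t i
  G0 : ∀ i j, G 0 i j = 0
  g0 : ∀ i, g 0 i = 0

namespace Dat

variable (d : Dat)

/-- the test map -/
noncomputable def th (x : E) : E := fun i => ∑ k, d.G (d.u x) i k * x k + d.g (d.u x) i

/-- the derivative of the test map in the direction of the parameter -/
noncomputable def L (x : E) (i : Fin 2) : ℝ := ∑ k, d.G' (d.u x) i k * x k + d.g' (d.u x) i

theorem grad_th {x : E} (hx : DifferentiableAt ℝ d.u x) (i j : Fin 2) :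
    grad d.th x i j = d.G (d.u x) i j + d.L x i * du d.u j x := by
  have hcoord : ∀ k : Fin 2, HasFDerivAt (fun y : E => y k)
      (ContinuousLinearMap.proj (R := ℝ) (φ := fun _ : Fin 2 => ℝ) k) x := fun k =>
    (ContinuousLinearMap.proj (R := ℝ) (φ := fun _ : Fin 2 => ℝ) k).hasFDerivAt
  have h1 : ∀ i k, HasFDerivAt (fun y => d.G (d.u y) i k) (d.G' (d.u x) i k • fderiv ℝ d.u x) x :=
    fun i k => (d.hG i k (d.u x)).comp_hasFDerivAt x hx.hasFDerivAt
  have h2 : ∀ i, HasFDerivAt (fun y => d.g (d.u y) i) (d.g' (d.u x) i • fderiv ℝ d.u x) x :=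
    fun i => (d.hg i (d.u x)).comp_hasFDerivAt x hx.hasFDerivAt
  have h3 : ∀ i, HasFDerivAt (fun y => d.th y i)
      (∑ k, (d.G (d.u x) i k • ContinuousLinearMap.proj (R := ℝ) (φ := fun _ : Fin 2 => ℝ) k +
        x k • (d.G' (d.u x) i k • fderiv ℝ d.u x)) + d.g' (d.u x) i • fderiv ℝ d.u x) x := fun i => by
    refine HasFDerivAt.add (HasFDerivAt.fun_sum fun k _ => ?_) (h2 i)
    exact (h1 i k).mul (hcoord k)
  have h4 := hasFDerivAt_pi.2 h3
  have h5 : fderiv ℝ d.th x = _ := h4.fderiv
  rw [grad_apply, h5]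
  simp only [ContinuousLinearMap.pi_apply, _root_.add_apply,
    _root_.smul_apply, ContinuousLinearMap.proj_apply,
    smul_eq_mul, Fin.sum_univ_two, L, du]
  fin_cases j
  · simp
    ring
  · simp
    ring

end Dat

end Pool.Agent.Q162.MO
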