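import Pool.Agent.Q162.MO.M2

/-!
# The quasiconvexity inequality for maps that are affine on level sets: functions of class `C¹`
-/

set_option autoImplicit false

open Matrix Set Filter Topology MeasureTheory
open scoped NNReal ENNReal

namespace Pool.Agent.Q162.MO

open Pool.Agent.Helper188.Morrey

/-- the product of a Lipschitz function vanishing off a bounded set with a coordinate -/
theorem lip_mul {f : E → ℝ} {C : ℝ≥0} {Ω : Set E} (hf : LipschitzWith C f)
    (hb : Bornology.IsBounded Ω) (h0 : ∀ x, x ∉ Ω → f x = 0) (k : Fin 2) :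
    ∃ D : ℝ≥0, LipschitzWith D (fun x => f x * x k) := by
  obtain ⟨M, hM0, hM⟩ := bounded_of hf hb h0
  obtain ⟨R, hR⟩ := hb.exists_norm_le
  have hR' : ∀ x ∈ Ω, |x k| ≤ |R| := fun x hx =>
    ((norm_le_pi_norm x k).trans (hR x hx)).trans (le_abs_self _)
  have key : ∀ x y : E, x ∈ Ω → |f x * x k - f y * y k| ≤ (C * |R| + M) * dist x y := by
    intro x y hx
    have e : f x * x k - f y * y k = (f x - f y) * x k + f y * (x k - y k) := by ring
    rw [e]
    have h1 : |f x - f y| ≤ C * dist x y := by
      have := hf.dist_le_mul x y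
      rwa [Real.dist_eq] at this
    have h2 : |x k - y k| ≤ dist x y := by
      have := dist_le_pi_dist x y k
      rwa [Real.dist_eq] at this
    calc |(f x - f y) * x k + f y * (x k - y k)|
        ≤ |(f x - f y) * x k| + |f y * (x k - y k)| := abs_add_le _ _
      _ ≤ C * dist x y * |R| + M * dist x y := by
          rw [abs_mul, abs_mul]
          exact add_le_add (mul_le_mul h1 (hR' x hx) (abs_nonneg _) (by positivity))
            (mul_le_mul (hM y) h2 (abs_nonneg _) hM0)
      _ = (C * |R| + M) * dist x y := by ring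
  have hnn : 0 ≤ (C : ℝ) * |R| + M := by positivity
  refine ⟨((C : ℝ) * |R| + M).toNNReal, LipschitzWith.of_dist_le_mul fun x y => ?_⟩
  rw [Real.coe_toNNReal _ hnn, Real.dist_eq]
  by_cases hx : x ∈ Ω
  · exact key x y hx
  · by_cases hy : y ∈ Ω
    · rw [abs_sub_comm, dist_comm]
      exact key y x hy
    · rw [h0 x hx, h0 y hy]
      simp only [zero_mul, sub_zero, abs_zero]
      positivity

namespace Dat

variable (d : Dat)

theorem lip_th : ∃ C : ℝ≥0, LipschitzWith C d.th := by
  obtain ⟨M, hM0, hM⟩ := bounded_of d.hu d.hb d.h0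
  have h1 : ∀ i k, ∃ C : ℝ≥0, LipschitzWith C (fun x => d.G (d.u x) i k * x k) := fun i k => by
    obtain ⟨C, hC⟩ := comp_lip d.hu hM (d.hG i k) (d.cG i k)
    exact lip_mul hC d.hb (fun x hx => by rw [d.h0 x hx, d.G0]) k
  have h2 : ∀ i, ∃ C : ℝ≥0, LipschitzWith C (fun x => d.g (d.u x) i) := fun i =>
    comp_lip d.hu hM (d.hg i) (d.cg i)
  choose C1 hC1 using h1
  choose C2 hC2 using h2
  have h3 : ∀ i, LipschitzWith (C1 i 0 + C1 i 1 + C2 i) (fun x => d.th x i) := fun i => by
    have := ((hC1 i 0).add (hC1 i 1)).add (hC2 i)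
    simpa only [th, Fin.sum_univ_two] using this
  refine ⟨(C1 0 0 + C1 0 1 + C2 0) + (C1 1 0 + C1 1 1 + C2 1),
    LipschitzWith.of_dist_le_mul fun x y => ?_⟩
  refine (dist_pi_le_iff (by positivity)).2 fun i => ?_
  refine ((h3 i).dist_le_mul x y).trans (mul_le_mul_of_nonneg_right ?_ dist_nonneg)
  rw [NNReal.coe_le_coe]
  fin_cases i
  · exact le_self_add
  · exact le_add_self

theorem th_off {x : E} (hx : x ∉ d.Ω) : d.th x = 0 := by
  funext i
  simp only [th, d.h0 x hx, d.G0, d.g0, zero_mul, Finset.sum_const_zero, add_zero, Pi.zero_apply]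

/-- the partial derivatives of `w` along the curve -/
noncomputable def D (w : A2 → ℝ) (F : A2) (t : ℝ) (i j : Fin 2) : ℝ :=
  fderiv ℝ w (F + d.G t) (mu i j)

theorem cGG : Continuous d.G := by
  refine continuous_pi fun i => continuous_pi fun j => ?_
  exact continuous_iff_continuousAt.2 fun t => (d.hG i j t).continuousAt

theorem cD {w : A2 → ℝ} (hw : ContDiff ℝ 1 w) (F : A2) (i j : Fin 2) :
    Continuous fun t => d.D w F t i j := by
  have h1 : Continuous (fderiv ℝ w) := hw.continuous_fderiv (by norm_num)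
  have h2 : Continuous fun t => fderiv ℝ w (F + d.G t) := h1.comp (continuous_const.add d.cGG)
  exact h2.clm_apply continuous_const

theorem sum_anti {w : A2 → ℝ} (hw : ContDiff ℝ 1 w) (F : A2) (t : ℝ) :
    ∑ i, ∑ j, anti (fun s => d.D w F s i j * d.G' s i j) t = w (F + d.G t) - w F := by
  have hc : ∀ i j, Continuous fun s => d.D w F s i j * d.G' s i j := fun i j =>
    (d.cD hw F i j).mul (d.cG i j)
  have h1 : ∀ s, HasDerivAt (fun s => w (F + d.G s)) (∑ i, ∑ j, d.D w F s i j * d.G' s i j) s := by
    intro s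
    have h2 : HasDerivAt (fun s => F + d.G s) (d.G' s) s := by
      refine HasDerivAt.const_add F ?_
      exact hasDerivAt_pi.2 fun i => hasDerivAt_pi.2 fun j => d.hG i j s
    have h3 : HasFDerivAt w (fderiv ℝ w (F + d.G s)) (F + d.G s) :=
      (hw.differentiable (by norm_num) _).hasFDerivAt
    have h4 := h3.comp_hasDerivAt s h2
    rw [lin_sum] at h4
    exact h4
  have h5 : ∑ i, ∑ j, anti (fun s => d.D w F s i j * d.G' s i j) t =
      ∫ s in (0 : ℝ)..t, ∑ i, ∑ j, d.D w F s i j * d.G' s i j := by
    simp only [anti]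
    rw [intervalIntegral.integral_finsetSum fun i _ => ?_]
    · refine Finset.sum_congr rfl fun i _ => ?_
      rw [intervalIntegral.integral_finsetSum fun j _ => (hc i j).intervalIntegrable _ _]
    · exact (continuous_finsetSum _ fun j _ => hc i j).intervalIntegrable _ _
  rw [h5, intervalIntegral.integral_eq_sub_of_hasDerivAt (fun s _ => h1 s)]
  · have h6 : F + d.G 0 = F := by
      funext i j
      rw [Pi.add_apply, Pi.add_apply, d.G0, add_zero]
    rw [h6]
  · exact (continuous_finsetSum _ fun i _ => continuous_finsetSum _ fun j _ =>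
      hc i j).intervalIntegrable _ _

/-- **the inequality for functions of class `C¹`** -/
theorem smooth {w : A2 → ℝ} (hw : ContDiff ℝ 1 w)
    (hW : RankOneConvex (fun A : M2 => w (fun i j => A i j))) (F : A2) :
    w F * (volume d.Ω).toReal ≤ ∫ x in d.Ω, w (F + fun i j => grad d.th x i j) := by
  obtain ⟨C, hC⟩ := d.lip_th
  have hfin : IsFiniteMeasure ((volume : Measure E).restrict d.Ω) := ⟨by
    rw [Measure.restrict_apply_univ]; exact d.hb.measure_lt_top⟩
  -- the terms of the divergence
  obtain ⟨T, hT⟩ : ∃ T : Fin 2 → Fin 2 → Fin 2 → E → ℝ, T = fun i j k x =>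
      d.D w F (d.u x) i j * d.G' (d.u x) i k * du d.u j x * x k +
        anti (fun s => d.D w F s i j * d.G' s i k) (d.u x) * du (fun y : E => y k) j x := ⟨_, rfl⟩
  obtain ⟨S, hS⟩ : ∃ S : Fin 2 → Fin 2 → E → ℝ, S = fun i j x =>
      d.D w F (d.u x) i j * d.g' (d.u x) i * du d.u j x * 1 +
        anti (fun s => d.D w F s i j * d.g' s i) (d.u x) * du (fun _ : E => (1 : ℝ)) j x := ⟨_, rfl⟩
  have hTi : ∀ i j k, Integrable (T i j k) (volume.restrict d.Ω) ∧ ∫ x in d.Ω, T i j k x = 0 := by
    intro i j k
    have := ibp d.hu d.ho d.hb d.h0 (P := anti (fun s => d.D w F s i j * d.G' s i k))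
      (p := fun s => d.D w F s i j * d.G' s i k) (fun t => anti_deriv
        ((d.cD hw F i j).mul (d.cG i k)) t) ((d.cD hw F i j).mul (d.cG i k)) (anti_zero _)
      (lip_coord k) j
    rw [hT]
    exact this
  have hSi : ∀ i j, Integrable (S i j) (volume.restrict d.Ω) ∧ ∫ x in d.Ω, S i j x = 0 := by
    intro i j
    have := ibp d.hu d.ho d.hb d.h0 (P := anti (fun s => d.D w F s i j * d.g' s i))
      (p := fun s => d.D w F s i j * d.g' s i) (fun t => anti_deriv
        ((d.cD hw F i j).mul (d.cg i)) t) ((d.cD hw F i j).mul (d.cg i)) (anti_zero _)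
      (LipschitzWith.const (1 : ℝ) : LipschitzWith 0 (fun _ : E => (1 : ℝ))) j
    rw [hS]
    exact this
  have hR : ∀ i j, Integrable (fun x => ∑ k, T i j k x + S i j x) (volume.restrict d.Ω) ∧
      ∫ x in d.Ω, (∑ k, T i j k x + S i j x) = 0 := by
    intro i j
    have h1 : Integrable (fun x => ∑ k, T i j k x) (volume.restrict d.Ω) :=
      integrable_finsetSum _ fun k _ => (hTi i j k).1
    refine ⟨h1.add (hSi i j).1, ?_⟩
    rw [integral_add h1 (hSi i j).1, (hSi i j).2, integral_finsetSum _ fun k _ => (hTi i j k).1,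
      add_zero]
    exact Finset.sum_eq_zero fun k _ => (hTi i j k).2
  have hsum : Integrable (fun x => ∑ i, ∑ j, (∑ k, T i j k x + S i j x)) (volume.restrict d.Ω) :=
    integrable_finsetSum _ fun i _ => integrable_finsetSum _ fun j _ => (hR i j).1
  have hzero : ∫ x in d.Ω, ∑ i, ∑ j, (∑ k, T i j k x + S i j x) = 0 := by
    rw [integral_finsetSum _ fun i _ => integrable_finsetSum _ fun j _ => (hR i j).1]
    refine Finset.sum_eq_zero fun i _ => ?_
    rw [integral_finsetSum _ fun j _ => (hR i j).1]
    exact Finset.sum_eq_zero fun j _ => (hR i j).2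
  have hconst : ∫ _ in d.Ω, w F = w F * (volume d.Ω).toReal := by
    rw [integral_const, smul_eq_mul, mul_comm]
    congr 1
    rw [Measure.real, Measure.restrict_apply_univ]
  have hWc : Continuous (fun A : M2 => w (F + fun i j => A i j)) := by
    refine hw.continuous.comp (continuous_const.add ?_)
    exact continuous_id
  have hint := integrable_comp hC d.hb hWc
  have hle : ∫ x in d.Ω, (w F + ∑ i, ∑ j, (∑ k, T i j k x + S i j x)) ≤
      ∫ x in d.Ω, w (F + fun i j => grad d.th x i j) := by
    refine integral_mono_ae ((integrable_const _).add hsum) hint ?_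
    refine ae_restrict_of_ae ?_
    filter_upwards [d.hu.ae_differentiableAt] with x hx
    have h1 := tangent hw hW (F + d.G (d.u x)) (d.L x) (fun j => du d.u j x)
    have h2 : (F + fun i j => grad d.th x i j) =
        F + d.G (d.u x) + fun i j => d.L x i * du d.u j x := by
      funext i j
      simp only [Pi.add_apply]
      rw [d.grad_th hx]
      ring
    rw [h2]
    refine le_trans (le_of_eq ?_) h1
    rw [lin_sum]
    have h3 := d.sum_anti hw F (d.u x)
    have h4 : ∑ i, ∑ j, (∑ k, T i j k x + S i j x) =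
        ∑ i, ∑ j, fderiv ℝ w (F + d.G (d.u x)) (mu i j) * (d.L x i * du d.u j x) +
        ∑ i, ∑ j, anti (fun s => d.D w F s i j * d.G' s i j) (d.u x) := by
      rw [← Finset.sum_add_distrib]
      refine Finset.sum_congr rfl fun i _ => ?_
      rw [← Finset.sum_add_distrib]
      refine Finset.sum_congr rfl fun j _ => ?_
      rw [hT, hS]
      simp only [du_coord, du_one, mul_ite, mul_one, mul_zero, add_zero]
      rw [Finset.sum_add_distrib, Finset.sum_ite_eq, if_pos (Finset.mem_univ _)]
      simp only [L, D, Fin.sum_univ_two]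
      ring
    rw [h4, h3]
    ring
  rw [integral_add (integrable_const _) hsum, hzero, add_zero, hconst] at hle
  exact hle

end Dat

end Pool.Agent.Q162.MO
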