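import Pool.Agent.Q162.MO.M3
import Mathlib.Analysis.Calculus.BumpFunction.Convolution

/-!
# Mollification of rank-one convex functions, and the inequality in general
-/

set_option autoImplicit false

open Matrix Set Filter Topology MeasureTheory
open scoped NNReal ENNReal Convolution

namespace Pool.Agent.Q162.MO

open Pool.Agent.Helper188.Morrey

theorem mollify {W : M2 → ℝ} (hW : RankOneConvex W) {R ε : ℝ} (hR : 0 ≤ R) (hε : 0 < ε) :
    ∃ w : A2 → ℝ, ContDiff ℝ 1 w ∧ RankOneConvex (fun A : M2 => w (fun i j => A i j)) ∧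
      ∀ a : A2, ‖a‖ ≤ R → |w a - W (Matrix.of a)| ≤ ε := by
  have hWc := hW.continuous
  obtain ⟨v, hv⟩ : ∃ v : A2 → ℝ, v = fun a => W (Matrix.of a) := ⟨_, rfl⟩
  have hvc : Continuous v := by
    rw [hv]
    exact hWc.comp continuous_id
  have huc := (isCompact_closedBall (0 : A2) (R + 1)).uniformContinuousOn_of_continuous
    hvc.continuousOn
  rw [Metric.uniformContinuousOn_iff] at huc
  obtain ⟨δ, hδ, hδ2⟩ := huc ε hε
  obtain ⟨ρ, hρ⟩ : ∃ ρ, ρ = min δ 1 := ⟨_, rfl⟩
  have hρ0 : 0 < ρ := by rw [hρ]; exact lt_min hδ one_pos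
  let φ : ContDiffBump (0 : A2) := ⟨ρ / 2, ρ, by positivity, by linarith⟩
  obtain ⟨w, hw⟩ : ∃ w : A2 → ℝ, w = (φ.normed volume ⋆[ContinuousLinearMap.lsmul ℝ ℝ, volume] v :
      A2 → ℝ) := ⟨_, rfl⟩
  have hwa : ∀ a, w a = ∫ t, φ.normed volume t * v (a - t) := by
    intro a
    rw [hw, convolution_def]
    rfl
  have hint : ∀ a, Integrable (fun t => φ.normed volume t * v (a - t)) volume := by
    intro a
    refine Continuous.integrable_of_hasCompactSupport ?_ ?_
    · exact φ.continuous_normed.mul (hvc.comp (continuous_const.sub continuous_id))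
    · exact φ.hasCompactSupport_normed.mul_right
  refine ⟨w, ?_, ?_, ?_⟩
  · rw [hw]
    exact φ.hasCompactSupport_normed.contDiff_convolution_left _ φ.contDiff_normed
      hvc.locallyIntegrable
  · intro F H hH t h0 h1
    simp only
    rw [hwa, hwa, hwa, ← integral_const_mul, ← integral_const_mul,
      ← integral_add ((hint _).const_mul _) ((hint _).const_mul _)]
    refine integral_mono (hint _) (((hint _).const_mul _).add ((hint _).const_mul _)) fun s => ?_
    have h2 := hW (F - Matrix.of s) H hH t h0 h1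
    have e1 : v ((fun i j => ((1 - t) • F + t • (F + H)) i j) - s) =
        W ((1 - t) • (F - Matrix.of s) + t • (F - Matrix.of s + H)) := by
      rw [hv]
      simp only
      congr 1
      ext i j
      simp only [Matrix.of_apply, Pi.sub_apply, Matrix.add_apply, Matrix.smul_apply,
        Matrix.sub_apply, smul_eq_mul]
      ring
    have e2 : v ((fun i j => F i j) - s) = W (F - Matrix.of s) := by
      rw [hv]
      rfl
    have e3 : v ((fun i j => (F + H) i j) - s) = W (F - Matrix.of s + H) := by
      rw [hv]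
      simp only
      congr 1
      ext i j
      simp only [Matrix.of_apply, Pi.sub_apply, Matrix.add_apply, Matrix.sub_apply]
      ring
    simp only
    rw [e1, e2, e3]
    have h3 := φ.nonneg_normed (μ := volume) s
    nlinarith [mul_le_mul_of_nonneg_left h2 h3]
  · intro a ha
    have h1 : dist (w a) (v a) ≤ ε := by
      rw [hw]
      refine φ.dist_normed_convolution_le hvc.aestronglyMeasurable fun x hx => ?_
      have hx1 : dist x a < ρ := hx
      have hx2 : ρ ≤ 1 := by rw [hρ]; exact min_le_right _ _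
      have hx3 : ρ ≤ δ := by rw [hρ]; exact min_le_left _ _
      refine (hδ2 x ?_ a ?_ (by linarith)).le
      · rw [mem_closedBall_zero_iff]
        have : ‖x‖ ≤ ‖x - a‖ + ‖a‖ := by
          have := norm_add_le (x - a) a
          rwa [sub_add_cancel] at this
        rw [dist_eq_norm] at hx1
        linarith
      · rw [mem_closedBall_zero_iff]
        linarith
    rw [Real.dist_eq, hv] at h1
    exact h1

namespace Dat

variable (d : Dat)

/-- **the inequality for all rank-one convex functions** -/
theorem main {W : M2 → ℝ} (hW : RankOneConvex W) (F : M2) :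
    W F * (volume d.Ω).toReal ≤ ∫ x in d.Ω, W (F + grad d.th x) := by
  obtain ⟨C, hC⟩ := d.lip_th
  have hWc := hW.continuous
  have hfin : IsFiniteMeasure ((volume : Measure E).restrict d.Ω) := ⟨by
    rw [Measure.restrict_apply_univ]; exact d.hb.measure_lt_top⟩
  obtain ⟨V, hV⟩ : ∃ V, V = (volume d.Ω).toReal := ⟨_, rfl⟩
  have hV0 : 0 ≤ V := by rw [hV]; exact ENNReal.toReal_nonneg
  obtain ⟨f, hf⟩ : ∃ f : A2, f = fun i j => F i j := ⟨_, rfl⟩
  obtain ⟨R, hR⟩ : ∃ R, R = ‖f‖ + C := ⟨_, rfl⟩
  have hR0 : 0 ≤ R := by rw [hR]; positivity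
  have hgr : ∀ x, ‖(f + fun i j => grad d.th x i j : A2)‖ ≤ R := by
    intro x
    rw [hR]
    refine (norm_add_le _ _).trans ?_
    refine add_le_add le_rfl ?_
    refine (pi_norm_le_iff_of_nonneg C.2).2 fun i => (pi_norm_le_iff_of_nonneg C.2).2 fun j => ?_
    exact grad_bound hC x i j
  rw [← hV]
  refine le_of_forall_pos_le_add fun ε hε => ?_
  obtain ⟨η, hη⟩ : ∃ η, η = ε / (2 * (V + 1)) := ⟨_, rfl⟩
  have hη0 : 0 < η := by rw [hη]; positivity
  obtain ⟨w, hw1, hw2, hw3⟩ := mollify hW hR0 hη0
  have h1 := d.smooth hw1 hw2 f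
  rw [← hV] at h1
  have h2 : W F - η ≤ w f := by
    have := hw3 f (by rw [hR]; have := C.2; linarith)
    have h3 := (abs_le.1 this).1
    have h4 : W (Matrix.of f) = W F := by rw [hf]; rfl
    rw [h4] at h3
    linarith
  have hc2 : Continuous (fun A : M2 => w (f + fun i j => A i j)) := by
    refine hw1.continuous.comp (continuous_const.add ?_)
    exact continuous_id
  have hc3 : Continuous (fun A : M2 => W (F + A)) := hWc.comp (continuous_const.add continuous_id)
  have h5 : ∫ x in d.Ω, w (f + fun i j => grad d.th x i j) ≤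
      ∫ x in d.Ω, (W (F + grad d.th x) + η) := by
    refine integral_mono (integrable_comp hC d.hb hc2)
      ((integrable_comp hC d.hb hc3).add (integrable_const _)) fun x => ?_
    have h6 := (abs_le.1 (hw3 _ (hgr x))).2
    have h7 : W (Matrix.of (f + fun i j => grad d.th x i j)) = W (F + grad d.th x) := by
      rw [hf]; rfl
    rw [h7] at h6
    simp only
    linarith
  rw [integral_add (integrable_comp hC d.hb hc3) (integrable_const _)] at h5
  have h8 : ∫ _ in d.Ω, η = η * V := by
    rw [integral_const, smul_eq_mul, mul_comm, hV]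
    congr 1
    rw [Measure.real, Measure.restrict_apply_univ]
  rw [h8] at h5
  have h9 : (W F - η) * V ≤ w f * V := mul_le_mul_of_nonneg_right h2 hV0
  have h10 : 2 * (η * V) ≤ ε := by
    rw [hη]
    have : ε / (2 * (V + 1)) * V = ε / 2 * (V / (V + 1)) := by
      field_simp
    rw [this]
    have h11 : V / (V + 1) ≤ 1 := by
      rw [div_le_one (by positivity)]
      linarith
    nlinarith
  nlinarith

end Dat

end Pool.Agent.Q162.MO
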