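import Pool.Agent.Q162.MO.M4

/-!
# Refinement of test maps
-/

set_option autoImplicit false

open Matrix Set Filter Topology MeasureTheory
open scoped NNReal ENNReal

namespace Pool.Agent.Q162.MO

open Pool.Agent.Helper188.Morrey

/-- the quasiconvexity inequality for one test map and all rank-one convex functions -/
def Jen (Ω : Set E) (θ : E → E) : Prop :=
  ∀ W : M2 → ℝ, RankOneConvex W → ∀ F : M2,
    W F * (volume Ω).toReal ≤ ∫ x in Ω, W (F + grad θ x)

theorem grad_affine (A : M2) (b : E) (x : E) : grad (fun y => A *ᵥ y + b) x = A := by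
  have h1 : HasFDerivAt (fun y : E => A *ᵥ y + b)
      (LinearMap.toContinuousLinearMap (Matrix.toLin' A)) x := by
    refine HasFDerivAt.add_const b ?_
    exact (LinearMap.toContinuousLinearMap (Matrix.toLin' A)).hasFDerivAt
  ext i j
  rw [grad_apply, h1.fderiv]
  simp

theorem grad_congr {θ η : E → E} {x : E} (h : θ =ᶠ[𝓝 x] η) : grad θ x = grad η x := by
  unfold grad
  rw [h.fderiv_eq]

theorem grad_add {θ η : E → E} {x : E} (h1 : DifferentiableAt ℝ θ x)
    (h2 : DifferentiableAt ℝ η x) : grad (fun y => θ y + η y) x = grad θ x + grad η x := by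
  ext i j
  rw [Matrix.add_apply, grad_apply, grad_apply, grad_apply, fderiv_fun_add h1 h2]
  rfl

theorem refine_jen {Ω : Set E} {θ η : E → E} (hb : Bornology.IsBounded Ω)
    (ho : IsOpen Ω) {K C : ℝ≥0} (hθ : LipschitzWith K θ) (hη : LipschitzWith C η)
    {U : ℕ → Set E} {A : ℕ → M2} {b : ℕ → E} (hU : ∀ n, IsOpen (U n)) (hUΩ : ∀ n, U n ⊆ Ω)
    (hd : Pairwise (Function.onFun Disjoint U)) (ha : ∀ n, ∀ x ∈ U n, θ x = A n *ᵥ x + b n)
    (h0 : ∀ x, x ∉ ⋃ n, U n → η x = 0) (h1 : Jen Ω θ)
    (h2 : ∀ n, Jen (U n) ((U n).indicator η)) : Jen Ω (fun x => θ x + η x) := by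
  intro W hW F
  have hWc := hW.continuous
  have hc : Continuous (fun B : M2 => W (F + B)) := hWc.comp (continuous_const.add continuous_id)
  obtain ⟨S, hS⟩ : ∃ S, S = ⋃ n, U n := ⟨_, rfl⟩
  have hSo : IsOpen S := by rw [hS]; exact isOpen_iUnion hU
  have hSΩ : S ⊆ Ω := by rw [hS]; exact iUnion_subset hUΩ
  have hi1 : IntegrableOn (fun x => W (F + grad θ x)) Ω := integrable_comp hθ hb hc
  have hi2 : IntegrableOn (fun x => W (F + grad (fun y => θ y + η y) x)) Ω :=
    integrable_comp (hθ.add hη) hb hc
  refine (h1 W hW F).trans ?_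
  have e1 : ∫ x in Ω, W (F + grad θ x) =
      (∫ x in S, W (F + grad θ x)) + ∫ x in Ω \ S, W (F + grad θ x) := by
    have := integral_inter_add_sdiff hSo.measurableSet hi1
    rw [inter_eq_right.2 hSΩ] at this
    exact this.symm
  have e2 : ∫ x in Ω, W (F + grad (fun y => θ y + η y) x) =
      (∫ x in S, W (F + grad (fun y => θ y + η y) x)) +
        ∫ x in Ω \ S, W (F + grad (fun y => θ y + η y) x) := by
    have := integral_inter_add_sdiff hSo.measurableSet hi2
    rw [inter_eq_right.2 hSΩ] at this
    exact this.symm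
  have hdθ := hθ.ae_differentiableAt (μ := (volume : Measure E))
  have hdη := hη.ae_differentiableAt (μ := (volume : Measure E))
  have e3 : ∫ x in Ω \ S, W (F + grad (fun y => θ y + η y) x) =
      ∫ x in Ω \ S, W (F + grad θ x) := by
    refine setIntegral_congr_ae (ho.measurableSet.diff hSo.measurableSet) ?_
    have h3 := grad_off hη hSo (fun x hx => h0 x (by rwa [hS] at hx))
    rw [ae_restrict_iff' hSo.measurableSet.compl] at h3
    filter_upwards [hdθ, hdη, h3] with x h4 h5 h6 hx
    rw [grad_add h4 h5, h6 hx.2, add_zero]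
  rw [e1, e2, e3]
  refine add_le_add ?_ le_rfl
  have hm : ∀ n, MeasurableSet (U n) := fun n => (hU n).measurableSet
  have s1 := hasSum_integral_iUnion hm hd (by
    have := hi1.mono_set hSΩ
    rwa [hS] at this)
  have s2 := hasSum_integral_iUnion hm hd (by
    have := hi2.mono_set hSΩ
    rwa [hS] at this)
  rw [← hS] at s1 s2
  refine hasSum_le (fun n => ?_) s1 s2
  have h3 := h2 n W hW (F + A n)
  have e4 : ∫ x in U n, W (F + grad θ x) = W (F + A n) * (volume (U n)).toReal := by
    have : ∫ x in U n, W (F + grad θ x) = ∫ _ in U n, W (F + A n) := by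
      refine setIntegral_congr_fun (hm n) fun x hx => ?_
      have h5 : θ =ᶠ[𝓝 x] fun y => A n *ᵥ y + b n := by
        filter_upwards [(hU n).mem_nhds hx] with y hy using ha n y hy
      rw [grad_congr h5, grad_affine]
    rw [this, integral_const, smul_eq_mul, mul_comm]
    congr 1
    rw [Measure.real, Measure.restrict_apply_univ]
  have e5 : ∫ x in U n, W (F + grad (fun y => θ y + η y) x) =
      ∫ x in U n, W (F + A n + grad ((U n).indicator η) x) := by
    refine setIntegral_congr_ae (hm n) ?_
    filter_upwards [hdη] with x h4 hx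
    have h5 : θ =ᶠ[𝓝 x] fun y => A n *ᵥ y + b n := by
      filter_upwards [(hU n).mem_nhds hx] with y hy using ha n y hy
    have h6 : (U n).indicator η =ᶠ[𝓝 x] η := by
      filter_upwards [(hU n).mem_nhds hx] with y hy using indicator_of_mem hy _
    have h7 : DifferentiableAt ℝ θ x := by
      have h8 : DifferentiableAt ℝ (fun y : E => A n *ᵥ y + b n) x := by
        refine DifferentiableAt.add_const _ ?_
        exact (LinearMap.toContinuousLinearMap (Matrix.toLin' (A n))).differentiableAt
      exact h8.congr_of_eventuallyEq h5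
    rw [grad_add h7 h4, grad_congr h5, grad_affine, grad_congr h6, add_assoc]
  rw [e4, e5]
  exact h3

end Pool.Agent.Q162.MO
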